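import Mathlib

/-!
Characters of the torus, uniqueness of measures with given Fourier coefficients, and the connected
subgroups which are annihilators of the saturated subgroups of `ℤ ^ d`.
-/

namespace Pool.Agent.H237.Torus

open MeasureTheory Set Filter Topology

variable {d : ℕ}

/-- The linear form `a₁ x₁ + ... + a_d x_d`. -/
noncomputable def form (a : Fin d → ℤ) (x : Fin d → UnitAddCircle) : UnitAddCircle :=
  ∑ i, a i • x i

lemma continuous_form (a : Fin d → ℤ) : Continuous (form a) := by
  unfold form
  fun_prop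

lemma form_nsmul (a : Fin d → ℤ) (n : ℕ) (x : Fin d → UnitAddCircle) :
    form a (n • x) = n • form a x := by
  unfold form
  rw [Finset.smul_sum]
  refine Finset.sum_congr rfl fun i _ => ?_
  rw [Pi.smul_apply, smul_comm]

lemma form_add (a : Fin d → ℤ) (x y : Fin d → UnitAddCircle) :
    form a (x + y) = form a x + form a y := by
  unfold form
  rw [← Finset.sum_add_distrib]
  refine Finset.sum_congr rfl fun i _ => ?_
  rw [Pi.add_apply, smul_add]

lemma form_neg (a : Fin d → ℤ) (x : Fin d → UnitAddCircle) : form a (-x) = -form a x := by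
  unfold form
  rw [← Finset.sum_neg_distrib]
  refine Finset.sum_congr rfl fun i _ => ?_
  rw [Pi.neg_apply, smul_neg]

lemma form_zero_right (a : Fin d → ℤ) : form a (0 : Fin d → UnitAddCircle) = 0 := by
  unfold form
  simp

lemma add_form (a b : Fin d → ℤ) (x : Fin d → UnitAddCircle) :
    form (a + b) x = form a x + form b x := by
  unfold form
  rw [← Finset.sum_add_distrib]
  refine Finset.sum_congr rfl fun i _ => ?_
  rw [Pi.add_apply, add_smul]

lemma zero_form (x : Fin d → UnitAddCircle) : form (0 : Fin d → ℤ) x = 0 := by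
  unfold form
  simp

lemma smul_form (c : ℤ) (a : Fin d → ℤ) (x : Fin d → UnitAddCircle) :
    form (c • a) x = c • form a x := by
  unfold form
  rw [Finset.smul_sum]
  refine Finset.sum_congr rfl fun i _ => ?_
  rw [Pi.smul_apply, smul_eq_mul, mul_smul]

lemma mFourier_eq (a : Fin d → ℤ) (x : Fin d → UnitAddCircle) :
    UnitAddTorus.mFourier a x = fourier 1 (form a x) := by
  classical
  unfold form UnitAddTorus.mFourier
  simp only [ContinuousMap.coe_mk]
  have h : ∀ s : Finset (Fin d), ∏ i ∈ s, (fourier (a i) (x i) : ℂ) =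
      fourier 1 (∑ i ∈ s, a i • x i) := by
    intro s
    induction s using Finset.induction_on with
    | empty => simp
    | insert i s hi ih =>
      rw [Finset.prod_insert hi, Finset.sum_insert hi, ih]
      rw [fourier_apply, fourier_apply, fourier_apply, one_smul, one_smul, AddCircle.toCircle_add,
        Circle.coe_mul]
  exact h Finset.univ

lemma mFourier_add_right (a : Fin d → ℤ) (x y : Fin d → UnitAddCircle) :
    UnitAddTorus.mFourier a (x + y) = UnitAddTorus.mFourier a x * UnitAddTorus.mFourier a y := by
  rw [mFourier_eq, mFourier_eq, mFourier_eq, form_add, fourier_apply, fourier_apply, fourier_apply,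
    one_smul, one_smul, one_smul, AddCircle.toCircle_add, Circle.coe_mul]

/-- Two finite measures on the torus with the same Fourier coefficients are equal. -/
theorem ext_mFourier (μ ν : Measure (UnitAddTorus (Fin d))) [IsFiniteMeasure μ]
    [IsFiniteMeasure ν]
    (h : ∀ a : Fin d → ℤ, ∫ x, UnitAddTorus.mFourier a x ∂μ = ∫ x, UnitAddTorus.mFourier a x ∂ν) :
    μ = ν := by
  -- the continuous functions with equal integrals form a closed subspace
  have hint : ∀ (ρ : Measure (UnitAddTorus (Fin d))) [IsFiniteMeasure ρ]
      (f : C(UnitAddTorus (Fin d), ℂ)), Integrable f ρ := by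
    intro ρ _ f
    exact f.continuous.integrable_of_hasCompactSupport (HasCompactSupport.of_compactSpace _)
  have hcont : ∀ (ρ : Measure (UnitAddTorus (Fin d))) [IsFiniteMeasure ρ],
      Continuous fun f : C(UnitAddTorus (Fin d), ℂ) => ∫ x, f x ∂ρ := by
    intro ρ _
    let T : C(UnitAddTorus (Fin d), ℂ) →ₗ[ℂ] ℂ :=
      { toFun := fun f => ∫ x, f x ∂ρ
        map_add' := fun f g => by
          simp only [ContinuousMap.add_apply]
          exact integral_add (hint ρ f) (hint ρ g)
        map_smul' := fun c f => by
          simp only [ContinuousMap.smul_apply, RingHom.id_apply]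
          exact integral_smul c _ }
    have hT : ∀ f, ‖T f‖ ≤ ρ.real univ * ‖f‖ := by
      intro f
      rw [mul_comm]
      exact norm_integral_le_of_norm_le_const (ae_of_all _ fun x => f.norm_coe_le_norm x)
    exact (LinearMap.mkContinuous T _ hT).continuous
  have hspan : ∀ f ∈ Submodule.span ℂ (range (UnitAddTorus.mFourier (d := Fin d))),
      ∫ x, f x ∂μ = ∫ x, f x ∂ν := by
    intro f hf
    induction hf using Submodule.span_induction with
    | mem f hf =>
      obtain ⟨a, rfl⟩ := hf
      exact h a
    | zero => simp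
    | add f g _ _ hf hg =>
      simp only [ContinuousMap.add_apply]
      rw [integral_add (hint μ f) (hint μ g), integral_add (hint ν f) (hint ν g), hf, hg]
    | smul c f _ hf =>
      simp only [ContinuousMap.smul_apply]
      rw [integral_smul, integral_smul, hf]
  have hall : ∀ f : C(UnitAddTorus (Fin d), ℂ), ∫ x, f x ∂μ = ∫ x, f x ∂ν := by
    intro f
    have hcl : IsClosed {f : C(UnitAddTorus (Fin d), ℂ) | ∫ x, f x ∂μ = ∫ x, f x ∂ν} :=
      isClosed_eq (hcont μ) (hcont ν)
    have hf : f ∈ (Submodule.span ℂ
        (range (UnitAddTorus.mFourier (d := Fin d)))).topologicalClosure := by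
      rw [UnitAddTorus.span_mFourier_closure_eq_top]
      trivial
    exact (closure_minimal hspan hcl) hf
  apply ext_of_forall_integral_eq_of_IsFiniteMeasure
  intro f
  have h1 := hall ⟨fun x => ((f x : ℝ) : ℂ), Complex.continuous_ofReal.comp f.continuous⟩
  simp only [ContinuousMap.coe_mk] at h1
  rw [integral_complex_ofReal, integral_complex_ofReal] at h1
  exact_mod_cast h1

/-- The subgroup annihilated by a set of characters. -/
def ann (L : Submodule ℤ (Fin d → ℤ)) : AddSubgroup (Fin d → UnitAddCircle) where
  carrier := {x | ∀ a ∈ L, form a x = 0}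
  zero_mem' := fun a _ => form_zero_right a
  add_mem' := by
    intro x y hx hy a ha
    rw [form_add, hx a ha, hy a ha, add_zero]
  neg_mem' := by
    intro x hx a ha
    rw [form_neg, hx a ha, neg_zero]

lemma mem_ann {L : Submodule ℤ (Fin d → ℤ)} {x : Fin d → UnitAddCircle} :
    x ∈ ann L ↔ ∀ a ∈ L, form a x = 0 := Iff.rfl

lemma isClosed_ann (L : Submodule ℤ (Fin d → ℤ)) : IsClosed (ann L : Set (Fin d → UnitAddCircle)) := by
  have h : (ann L : Set (Fin d → UnitAddCircle)) = ⋂ a ∈ L, {x | form a x = 0} := by
    ext x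
    simp only [SetLike.mem_coe, mem_ann, mem_iInter, mem_ofPred_eq]
  rw [h]
  exact isClosed_biInter fun a _ => isClosed_eq (continuous_form a) continuous_const

/-- A homomorphism from a saturated subgroup of `ℤ ^ d` to `ℤ` extends to `ℤ ^ d`. -/
lemma exists_extension {L : Submodule ℤ (Fin d → ℤ)}
    (hsat : ∀ (n : ℤ) (a : Fin d → ℤ), n ≠ 0 → n • a ∈ L → a ∈ L) (f : L →ₗ[ℤ] ℤ) :
    ∃ g : (Fin d → ℤ) →ₗ[ℤ] ℤ, ∀ a : L, g a = f a := by
  have htf : Module.IsTorsionFree ℤ ((Fin d → ℤ) ⧸ L) := by
    rw [Module.isTorsionFree_int_iff_isAddTorsionFree]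
    refine ⟨fun n hn => ?_⟩
    intro x y hxy
    obtain ⟨a, rfl⟩ := Submodule.mkQ_surjective L x
    obtain ⟨b, rfl⟩ := Submodule.mkQ_surjective L y
    simp only at hxy
    rw [← map_nsmul, ← map_nsmul, ← sub_eq_zero, ← map_sub, Submodule.mkQ_apply,
      Submodule.Quotient.mk_eq_zero, ← smul_sub] at hxy
    rw [← sub_eq_zero, ← map_sub, Submodule.mkQ_apply, Submodule.Quotient.mk_eq_zero]
    refine hsat (n : ℤ) _ (by exact_mod_cast hn) ?_
    rw [natCast_zsmul]
    exact hxy
  have hfree : Module.Free ℤ ((Fin d → ℤ) ⧸ L) := Module.free_of_finite_type_torsion_free'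
  obtain ⟨s, hs⟩ := Module.projective_lifting_property L.mkQ
    (LinearMap.id : ((Fin d → ℤ) ⧸ L) →ₗ[ℤ] _) (Submodule.mkQ_surjective L)
  have hmem : ∀ a : Fin d → ℤ, a - s (L.mkQ a) ∈ L := by
    intro a
    rw [← Submodule.Quotient.mk_eq_zero, ← Submodule.mkQ_apply, map_sub, sub_eq_zero]
    have := LinearMap.congr_fun hs (L.mkQ a)
    simp only [LinearMap.comp_apply, LinearMap.id_apply] at this
    exact this.symm
  let r : (Fin d → ℤ) →ₗ[ℤ] L :=
    LinearMap.codRestrict L (LinearMap.id - s.comp L.mkQ) hmem
  refine ⟨f.comp r, fun a => ?_⟩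
  rw [LinearMap.comp_apply]
  apply congrArg f
  apply Subtype.ext
  simp only [r, LinearMap.codRestrict_apply, LinearMap.sub_apply, LinearMap.id_apply,
    LinearMap.comp_apply]
  have : L.mkQ (a : Fin d → ℤ) = 0 := by
    rw [Submodule.mkQ_apply, Submodule.Quotient.mk_eq_zero]
    exact a.2
  rw [this, map_zero, sub_zero]

/-- The annihilator of a saturated subgroup of `ℤ ^ d` is connected. -/
theorem isConnected_ann {L : Submodule ℤ (Fin d → ℤ)}
    (hsat : ∀ (n : ℤ) (a : Fin d → ℤ), n ≠ 0 → n • a ∈ L → a ∈ L) :
    IsConnected (ann L : Set (Fin d → UnitAddCircle)) := by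
  -- the linear space above it
  let V : Set (Fin d → ℝ) := {w | ∀ a ∈ L, ∑ i, (a i : ℝ) * w i = 0}
  have hV0 : (0 : Fin d → ℝ) ∈ V := by
    intro a _
    simp
  have hconv : Convex ℝ V := by
    intro u hu w hw s t _ _ _ a ha
    have h1 := hu a ha
    have h2 := hw a ha
    have h3 : ∑ i, (a i : ℝ) * (s • u + t • w) i =
        s * ∑ i, (a i : ℝ) * u i + t * ∑ i, (a i : ℝ) * w i := by
      rw [Finset.mul_sum, Finset.mul_sum, ← Finset.sum_add_distrib]
      refine Finset.sum_congr rfl fun i _ => ?_
      simp only [Pi.add_apply, Pi.smul_apply, smul_eq_mul]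
      ring
    rw [h3, h1, h2]
    ring
  have hVc : IsConnected V := ⟨⟨0, hV0⟩, hconv.isPreconnected⟩
  let π : (Fin d → ℝ) → (Fin d → UnitAddCircle) := fun w i => (w i : UnitAddCircle)
  have hπ : Continuous π := by
    refine continuous_pi fun i => ?_
    exact (AddCircle.continuous_mk' 1).comp (continuous_apply i)
  have hform : ∀ (a : Fin d → ℤ) (w : Fin d → ℝ),
      form a (π w) = ((∑ i, (a i : ℝ) * w i : ℝ) : UnitAddCircle) := by
    intro a w
    unfold form
    have h1 : ((∑ i, (a i : ℝ) * w i : ℝ) : UnitAddCircle) =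
        ∑ i, (((a i : ℝ) * w i : ℝ) : UnitAddCircle) :=
      map_sum (QuotientAddGroup.mk' (AddSubgroup.zmultiples (1 : ℝ))) _ _
    rw [h1]
    refine Finset.sum_congr rfl fun i _ => ?_
    simp only [π]
    rw [← AddCircle.coe_zsmul, zsmul_eq_mul]
  have himg : (ann L : Set (Fin d → UnitAddCircle)) = π '' V := by
    ext x
    constructor
    · intro hx
      have hx' : ∀ a ∈ L, form a x = 0 := hx
      choose v hv using fun i => QuotientAddGroup.mk_surjective (x i)
      have hxv : x = π v := by
        funext i
        exact (hv i).symm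
      have hint : ∀ a : L, ∃ n : ℤ, (n : ℝ) = ∑ i, ((a : Fin d → ℤ) i : ℝ) * v i := by
        intro a
        have h1 := hx' a a.2
        rw [hxv, hform] at h1
        obtain ⟨n, hn⟩ := (AddCircle.coe_eq_zero_iff (1 : ℝ)).mp h1
        refine ⟨n, ?_⟩
        rw [← hn]
        simp
      choose f hf using hint
      let F : L →ₗ[ℤ] ℤ :=
        { toFun := f
          map_add' := by
            intro a b
            have : ((f (a + b) : ℤ) : ℝ) = (f a : ℝ) + (f b : ℝ) := by
              rw [hf, hf, hf, ← Finset.sum_add_distrib]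
              refine Finset.sum_congr rfl fun i _ => ?_
              simp only [Submodule.coe_add, Pi.add_apply, Int.cast_add]
              ring
            exact_mod_cast this
          map_smul' := by
            intro c a
            have : ((f (c • a) : ℤ) : ℝ) = (c : ℝ) * (f a : ℝ) := by
              rw [hf, hf, Finset.mul_sum]
              refine Finset.sum_congr rfl fun i _ => ?_
              simp only [Submodule.coe_smul, Pi.smul_apply, smul_eq_mul, Int.cast_mul]
              ring
            simp only [smul_eq_mul, RingHom.id_apply]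
            exact_mod_cast this }
      obtain ⟨g, hg⟩ := exists_extension hsat F
      refine ⟨fun i => v i - (g (Pi.single i 1) : ℝ), ?_, ?_⟩
      · intro a ha
        have h1 : (g a : ℝ) = ∑ i, (a i : ℝ) * (g (Pi.single i 1) : ℝ) := by
          have h2 : g a = ∑ i, a i * g (Pi.single i 1) := by
            conv_lhs => rw [← LinearMap.sum_single_apply (fun _ : Fin d => ℤ) a]
            rw [map_sum]
            refine Finset.sum_congr rfl fun i _ => ?_
            have h3 : (Pi.single i (a i) : Fin d → ℤ) =
                a i • (Pi.single i 1 : Fin d → ℤ) := by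
              rw [← Pi.single_smul]
              simp
            have h4 : (LinearMap.single ℤ (fun _ : Fin d => ℤ) i) (a i) =
                (Pi.single i (a i) : Fin d → ℤ) := rfl
            first
              | rw [h4, h3, map_smul, smul_eq_mul]
              | rw [h3, map_smul, smul_eq_mul]
          rw [h2]
          push_cast
          rfl
        have h2 : (g a : ℝ) = ∑ i, (a i : ℝ) * v i := by
          rw [show g a = f ⟨a, ha⟩ from hg ⟨a, ha⟩]
          exact hf ⟨a, ha⟩
        have h3 : ∑ i, (a i : ℝ) * (v i - (g (Pi.single i 1) : ℝ)) =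
            ∑ i, (a i : ℝ) * v i - ∑ i, (a i : ℝ) * (g (Pi.single i 1) : ℝ) := by
          rw [← Finset.sum_sub_distrib]
          refine Finset.sum_congr rfl fun i _ => ?_
          ring
        rw [h3, ← h1, ← h2, sub_self]
      · rw [hxv]
        funext i
        simp only [π]
        rw [AddCircle.coe_sub]
        have : ((g (Pi.single i 1) : ℝ) : UnitAddCircle) = 0 := by
          rw [AddCircle.coe_eq_zero_iff]
          exact ⟨g (Pi.single i 1), by simp⟩
        rw [this, sub_zero]
    · rintro ⟨w, hw, rfl⟩
      intro a ha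
      rw [hform, hw a ha]
      rfl
  rw [himg]
  exact hVc.image π hπ.continuousOn

end Pool.Agent.H237.Torus
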