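import Pool.Agent.H237.Torus.Char

/-!
Classification of the ergodic measures on `T ^ d` invariant under a semigroup of multiplications,
from the uniform form of rigidity on the circle.
-/

namespace Pool.Agent.H237.Torus

open MeasureTheory Set Filter Topology

variable {d : ℕ}

/-- The points of order at most `Q`. -/
def Small (Q : ℕ) : Set UnitAddCircle := {x | ∃ m : ℕ, 1 ≤ m ∧ m ≤ Q ∧ m • x = 0}

/-- The uniform form of rigidity. -/
def Uniform (P : Set ℕ) : Prop :=
  ∀ f : C(UnitAddCircle, ℝ), ∀ ε : ℝ, 0 < ε → ∃ Q : ℕ, ∀ μ : Measure UnitAddCircle,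
    IsProbabilityMeasure μ →
      (∀ p ∈ P, MeasurePreserving (fun x : UnitAddCircle => p • x) μ μ) →
        |(∫ x in (Small Q)ᶜ, f x ∂μ) - μ.real (Small Q)ᶜ * ∫ x, f x| ≤ ε

/-- An invariant measure without torsion points is Lebesgue measure. -/
lemma eq_volume_of_uniform {P : Set ℕ} (hU : Uniform P) (ρ : Measure UnitAddCircle)
    [IsProbabilityMeasure ρ]
    (hinv : ∀ p ∈ P, MeasurePreserving (fun x : UnitAddCircle => p • x) ρ ρ)
    (hnt : ∀ᵐ x ∂ρ, ∀ m : ℕ, 1 ≤ m → m • x ≠ 0) : ρ = volume := by
  apply ext_of_forall_integral_eq_of_IsFiniteMeasure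
  intro f
  have hall : ∀ ε : ℝ, 0 < ε → |(∫ x, f x ∂ρ) - ∫ x, f x| ≤ ε := by
    intro ε hε
    obtain ⟨Q, hQ⟩ := hU ⟨f, f.continuous⟩ ε hε
    have h1 := hQ ρ inferInstance hinv
    have hae : ∀ᵐ x ∂ρ, x ∈ (Small Q)ᶜ := by
      filter_upwards [hnt] with x hx
      rintro ⟨m, hm1, _, hm0⟩
      exact hx m hm1 hm0
    have h2 : ρ.restrict (Small Q)ᶜ = ρ := Measure.restrict_eq_self_of_ae_mem hae
    have h3 : ρ.real (Small Q)ᶜ = 1 := by
      have h4 : ρ (Small Q)ᶜ = ρ univ := by
        rw [← Measure.restrict_apply_univ, h2]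
      rw [measureReal_def, h4, measure_univ]
      rfl
    rw [h2, h3, one_mul] at h1
    exact h1
  have h0 : |(∫ x, f x ∂ρ) - ∫ x, f x| ≤ 0 := le_of_forall_pos_le_add fun ε hε => by
    rw [zero_add]
    exact hall ε hε
  have h1 := abs_nonpos_iff.mp h0
  linarith

/-- The integral of a nontrivial character. -/
lemma integral_fourier_one : ∫ x : UnitAddCircle, (fourier 1 x : ℂ) = 0 :=
  integral_eq_zero_of_add_right_eq_neg (g := (((1 : ℝ) / 2 / ((1 : ℤ) : ℝ) : ℝ) : UnitAddCircle))
    (fun x => fourier_add_half_inv_index one_ne_zero one_pos x)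

/-- The torsion set of a character. -/
def TorSet (a : Fin d → ℤ) : Set (Fin d → UnitAddCircle) := {x | ∃ m : ℕ, 1 ≤ m ∧ m • form a x = 0}

lemma measurableSet_level (a : Fin d → ℤ) (m : ℕ) :
    MeasurableSet {x : Fin d → UnitAddCircle | m • form a x = 0} :=
  (isClosed_eq ((continuous_form a).const_smul m) continuous_const).measurableSet

lemma measurableSet_torSet (a : Fin d → ℤ) : MeasurableSet (TorSet a) := by
  have : TorSet a = ⋃ m : ℕ, ⋃ _ : 1 ≤ m, {x : Fin d → UnitAddCircle | m • form a x = 0} := by
    ext x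
    simp only [TorSet, mem_ofPred_eq, mem_iUnion, exists_prop]
  rw [this]
  exact MeasurableSet.iUnion fun m => MeasurableSet.iUnion fun _ => measurableSet_level a m

lemma preimage_torSet (a : Fin d → ℤ) {p : ℕ} (hp : 2 ≤ p) :
    (fun x : Fin d → UnitAddCircle => p • x) ⁻¹' (TorSet a) = TorSet a := by
  ext x
  simp only [TorSet, mem_preimage, mem_ofPred_eq, form_nsmul]
  constructor
  · rintro ⟨m, hm, h⟩
    refine ⟨m * p, by nlinarith, ?_⟩
    rw [mul_smul]
    exact h
  · rintro ⟨m, hm, h⟩
    refine ⟨m, hm, ?_⟩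
    rw [smul_comm, h, smul_zero]

/-- **Classification.** -/
theorem classify {P : Set ℕ} (hP : ∀ p ∈ P, 2 ≤ p) (hU : Uniform P)
    (μ : Measure (Fin d → UnitAddCircle)) [IsProbabilityMeasure μ]
    (hinv : ∀ p ∈ P, MeasurePreserving (fun x : Fin d → UnitAddCircle => p • x) μ μ)
    (herg : ∀ A : Set (Fin d → UnitAddCircle), MeasurableSet A →
      (∀ p ∈ P, (fun x : Fin d → UnitAddCircle => p • x) ⁻¹' A = A) → μ A = 0 ∨ μ A = 1) :
    ∃ H : AddSubgroup (Fin d → UnitAddCircle),
      IsClosed (H : Set (Fin d → UnitAddCircle)) ∧ IsConnected (H : Set (Fin d → UnitAddCircle)) ∧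
      (∀ h ∈ H, μ.map (fun x => h + x) = μ) ∧ ∃ m : ℕ, 1 ≤ m ∧ ∀ᵐ x ∂μ, m • x ∈ H := by
  classical
  -- the characters with torsion values
  let L : Submodule ℤ (Fin d → ℤ) :=
    { carrier := {a | ∀ᵐ x ∂μ, x ∈ TorSet a}
      zero_mem' := by
        refine ae_of_all _ fun x => ⟨1, le_refl 1, ?_⟩
        rw [zero_form, smul_zero]
      add_mem' := by
        intro a b ha hb
        change ∀ᵐ x ∂μ, x ∈ TorSet (a + b)
        have ha' : ∀ᵐ x ∂μ, x ∈ TorSet a := ha
        have hb' : ∀ᵐ x ∂μ, x ∈ TorSet b := hb
        filter_upwards [ha', hb'] with x hx hy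
        obtain ⟨m, hm, hmx⟩ := hx
        obtain ⟨n, hn, hnx⟩ := hy
        refine ⟨m * n, Nat.mul_pos hm hn, ?_⟩
        rw [add_form, smul_add, mul_comm, mul_smul, hmx, smul_zero, mul_comm, mul_smul, hnx,
          smul_zero, add_zero]
      smul_mem' := by
        intro c a ha
        change ∀ᵐ x ∂μ, x ∈ TorSet (c • a)
        have ha' : ∀ᵐ x ∂μ, x ∈ TorSet a := ha
        filter_upwards [ha'] with x hx
        obtain ⟨m, hm, hmx⟩ := hx
        refine ⟨m, hm, ?_⟩
        rw [smul_form, smul_comm, hmx, smul_zero] }
  have hLmem : ∀ a, a ∈ L ↔ ∀ᵐ x ∂μ, x ∈ TorSet a := fun a => Iff.rfl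
  -- it is saturated
  have hsat : ∀ (n : ℤ) (a : Fin d → ℤ), n ≠ 0 → n • a ∈ L → a ∈ L := by
    intro n a hn ha
    rw [hLmem] at ha ⊢
    filter_upwards [ha] with x hx
    obtain ⟨m, hm, hmx⟩ := hx
    rw [smul_form] at hmx
    refine ⟨m * n.natAbs, Nat.mul_pos hm (Int.natAbs_pos.mpr hn), ?_⟩
    have h1 : m • n • form a x = 0 := hmx
    rcases Int.natAbs_eq n with h | h
    · rw [h, natCast_zsmul] at h1
      rw [mul_smul]
      exact h1
    · rw [h, neg_smul, natCast_zsmul, smul_neg, neg_eq_zero] at h1
      rw [mul_smul]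
      exact h1
  -- the Fourier coefficients outside vanish
  have hzero : ∀ a, a ∉ L → ∫ x, UnitAddTorus.mFourier a x ∂μ = 0 := by
    intro a ha
    have h01 := herg (TorSet a) (measurableSet_torSet a) fun p hp => preimage_torSet a (hP p hp)
    have h0 : μ (TorSet a) = 0 := by
      rcases h01 with h | h
      · exact h
      · exfalso
        apply ha
        rw [hLmem]
        exact (prob_compl_eq_zero_iff (measurableSet_torSet a)).mpr h
    have hmap : IsProbabilityMeasure (μ.map (form a)) :=
      Measure.isProbabilityMeasure_map (continuous_form a).measurable.aemeasurable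
    have hinv' : ∀ p ∈ P, MeasurePreserving (fun x : UnitAddCircle => p • x)
        (μ.map (form a)) (μ.map (form a)) := by
      intro p hp
      have hm1 : Measurable (fun x : UnitAddCircle => p • x) := (continuous_const_smul p).measurable
      refine ⟨hm1, ?_⟩
      rw [Measure.map_map hm1 (continuous_form a).measurable]
      have h1 : (fun x : UnitAddCircle => p • x) ∘ form a =
          form a ∘ (fun x : Fin d → UnitAddCircle => p • x) := by
        funext x
        simp only [Function.comp_apply]
        rw [form_nsmul]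
      rw [h1, ← Measure.map_map (continuous_form a).measurable (hinv p hp).measurable,
        (hinv p hp).map_eq]
    have hnt : ∀ᵐ x ∂(μ.map (form a)), ∀ m : ℕ, 1 ≤ m → m • x ≠ 0 := by
      rw [ae_all_iff]
      intro m
      by_cases hm : 1 ≤ m
      · have hms : MeasurableSet {x : UnitAddCircle | m • x ≠ 0} :=
          (isOpen_ne_fun (continuous_const_smul m) continuous_const).measurableSet
        have h1 : ∀ᵐ x ∂(μ.map (form a)), m • x ≠ 0 := by
          rw [ae_map_iff (continuous_form a).measurable.aemeasurable hms]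
          have h2 : ∀ᵐ x ∂μ, x ∉ TorSet a := measure_eq_zero_iff_ae_notMem.mp h0
          filter_upwards [h2] with x hx h3
          exact hx ⟨m, hm, h3⟩
        filter_upwards [h1] with x hx _
        exact hx
      · exact ae_of_all _ fun x h => absurd h hm
    have hvol := eq_volume_of_uniform hU (μ.map (form a)) hinv' hnt
    have h1 : ∫ x, UnitAddTorus.mFourier a x ∂μ = ∫ y, (fourier 1 y : ℂ) ∂(μ.map (form a)) := by
      rw [integral_map (continuous_form a).measurable.aemeasurable
        (fourier 1 : C(UnitAddCircle, ℂ)).continuous.aestronglyMeasurable]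
      refine integral_congr_ae (ae_of_all _ fun x => ?_)
      exact mFourier_eq a x
    rw [h1, hvol]
    exact integral_fourier_one
  -- the values of the characters in `L` have bounded order
  have hbdd : ∀ a ∈ L, ∃ m : ℕ, 1 ≤ m ∧ ∀ᵐ x ∂μ, m • form a x = 0 := by
    intro a ha
    rw [hLmem] at ha
    -- some level set has positive measure
    have hpos : ∃ m : ℕ, 1 ≤ m ∧ μ {x | m • form a x = 0} ≠ 0 := by
      by_contra hcon
      push Not at hcon
      have h1 : μ (TorSet a) = 0 := by
        have h2 : TorSet a = ⋃ m : ℕ, ⋃ _ : 1 ≤ m, {x : Fin d → UnitAddCircle | m • form a x = 0} := by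
          ext x
          simp only [TorSet, mem_ofPred_eq, mem_iUnion, exists_prop]
        rw [h2, measure_iUnion_null_iff]
        intro m
        rw [measure_iUnion_null_iff]
        exact hcon m
      have h2 : μ (TorSet a) = 1 := by
        have := (prob_compl_eq_zero_iff (measurableSet_torSet a)).mp ha
        exact this
      rw [h1] at h2
      exact zero_ne_one h2
    obtain ⟨m, hm, hmpos⟩ := hpos
    refine ⟨m, hm, ?_⟩
    -- the level sets of multiples are equal up to measure zero
    have hstep : ∀ n p : ℕ, p ∈ P →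
        μ {x | (p * n) • form a x = 0} = μ {x | n • form a x = 0} := by
      intro n p hp
      have h1 := (hinv p hp).measure_preimage (measurableSet_level a n).nullMeasurableSet
      rw [← h1]
      congr 1
      ext x
      simp only [mem_preimage, mem_ofPred_eq, form_nsmul]
      rw [mul_comm, mul_smul]
    have hS : ∀ s ∈ Submonoid.closure P,
        μ {x | (s * m) • form a x = 0} = μ {x | m • form a x = 0} := by
      intro s hs
      induction hs using Submonoid.closure_induction_left with
      | one => rw [one_mul]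
      | mul_left p hp s _ ih =>
        rw [mul_assoc, hstep (s * m) p hp, ih]
    let B : Set (Fin d → UnitAddCircle) :=
      ⋃ s : Submonoid.closure P, {x | ((s : ℕ) * m) • form a x = 0}
    have hBm : MeasurableSet B := MeasurableSet.iUnion fun s => measurableSet_level a _
    have hBinv : ∀ p ∈ P, (fun x : Fin d → UnitAddCircle => p • x) ⁻¹' B = B := by
      intro p hp
      ext x
      simp only [B, mem_preimage, mem_iUnion, mem_ofPred_eq, form_nsmul]
      constructor
      · rintro ⟨s, hs⟩
        refine ⟨⟨s * p, Submonoid.mul_mem _ s.2 (Submonoid.subset_closure hp)⟩, ?_⟩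
        simp only
        rw [mul_right_comm, mul_smul]
        exact hs
      · rintro ⟨s, hs⟩
        refine ⟨s, ?_⟩
        rw [smul_comm, hs, smul_zero]
    have hsub : {x : Fin d → UnitAddCircle | m • form a x = 0} ⊆ B := by
      intro x hx
      simp only [B, mem_iUnion, mem_ofPred_eq]
      refine ⟨1, ?_⟩
      rw [Submonoid.coe_one, one_mul]
      exact hx
    have hB1 : μ B = 1 := by
      rcases herg B hBm hBinv with h | h
      · exact absurd (measure_mono_null hsub h) hmpos
      · exact h
    have hdiff : μ (B \ {x | m • form a x = 0}) = 0 := by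
      have h1 : B \ {x | m • form a x = 0} = ⋃ s : Submonoid.closure P,
          ({x | ((s : ℕ) * m) • form a x = 0} \ {x | m • form a x = 0}) := by
        simp only [B]
        rw [iUnion_sdiff]
      rw [h1, measure_iUnion_null_iff]
      intro s
      have hsub2 : {x : Fin d → UnitAddCircle | m • form a x = 0} ⊆
          {x | ((s : ℕ) * m) • form a x = 0} := by
        intro x hx
        simp only [mem_ofPred_eq] at hx ⊢
        rw [mul_smul, hx, smul_zero]
      rw [measure_sdiff hsub2 (measurableSet_level a m).nullMeasurableSet (measure_ne_top _ _),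
        hS s s.2, tsub_self]
    have h2 : μ {x : Fin d → UnitAddCircle | m • form a x = 0} = 1 := by
      rw [← hB1]
      have h3 := measure_sdiff_add_inter (μ := μ) B (measurableSet_level a m)
      rw [hdiff, zero_add, inter_eq_self_of_subset_right hsub] at h3
      exact h3
    exact (prob_compl_eq_zero_iff (measurableSet_level a m)).mpr h2
  refine ⟨ann L, isClosed_ann L, isConnected_ann hsat, ?_, ?_⟩
  · -- invariance
    intro h hh
    have hmeas : Measurable (fun x : Fin d → UnitAddCircle => h + x) :=
      (continuous_const.add continuous_id).measurable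
    have : IsProbabilityMeasure (μ.map (fun x => h + x)) :=
      Measure.isProbabilityMeasure_map hmeas.aemeasurable
    refine ext_mFourier _ _ fun a => ?_
    rw [integral_map hmeas.aemeasurable
      (UnitAddTorus.mFourier a).continuous.aestronglyMeasurable]
    have h1 : ∀ x, UnitAddTorus.mFourier a (h + x) =
        UnitAddTorus.mFourier a h * UnitAddTorus.mFourier a x := fun x => mFourier_add_right a h x
    simp only [h1]
    rw [integral_const_mul]
    by_cases ha : a ∈ L
    · rw [mFourier_eq a h, hh a ha]
      simp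
    · rw [hzero a ha, mul_zero]
  · -- bounded torsion modulo the subgroup
    obtain ⟨s, hs⟩ := (IsNoetherian.noetherian L : L.FG)
    choose! M hM1 hM using hbdd
    refine ⟨∏ a ∈ s, M a, ?_, ?_⟩
    · refine Nat.one_le_iff_ne_zero.mpr (Finset.prod_ne_zero_iff.mpr fun a ha => ?_)
      have := hM1 a (hs ▸ Submodule.subset_span ha)
      lia
    · have h1 : ∀ᵐ x ∂μ, ∀ a ∈ s, M a • form a x = 0 := by
        rw [Finset.eventually_all]
        intro a ha
        exact hM a (hs ▸ Submodule.subset_span ha)
      filter_upwards [h1] with x hx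
      rw [mem_ann]
      intro a ha
      rw [form_nsmul]
      rw [← hs] at ha
      induction ha using Submodule.span_induction with
      | mem a ha =>
        obtain ⟨c, hc⟩ := Finset.dvd_prod_of_mem M ha
        rw [hc, mul_comm, mul_smul, hx a ha, smul_zero]
      | zero => rw [zero_form, smul_zero]
      | add a b _ _ iha ihb => rw [add_form, smul_add, iha, ihb, add_zero]
      | smul c a _ ih => rw [smul_form, smul_comm, ih, smul_zero]

end Pool.Agent.H237.Torus
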