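import Pool.Agent.H237.Zero.Semi

/-!
A set of primes which generates a semigroup of zero logarithmic density and satisfies the growth
condition of the rigidity theorem.
-/

namespace Pool.Agent.H237.Torus

open Set Filter Topology

/-- A slowly growing exponent. -/
def hh (j : ℕ) : ℕ := Nat.log 2 (Nat.log 2 (Nat.log 2 j)) + 2

/-- The indices of the chosen primes. -/
def gg (j : ℕ) : ℕ := (j + 2) ^ hh j

lemma hh_mono : Monotone hh := by
  intro a b hab
  unfold hh
  have := Nat.log_mono_right (b := 2) (Nat.log_mono_right (b := 2) (Nat.log_mono_right (b := 2) hab))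
  lia

lemma hh_ge (K : ℕ) {j : ℕ} (hj : 2 ^ (2 ^ (2 ^ K)) ≤ j) : K ≤ hh j := by
  have h1 : Nat.log 2 (Nat.log 2 (Nat.log 2 (2 ^ (2 ^ (2 ^ K))))) = K := by
    rw [Nat.log_pow (by norm_num), Nat.log_pow (by norm_num), Nat.log_pow (by norm_num)]
  have := Nat.log_mono_right (b := 2) (Nat.log_mono_right (b := 2) (Nat.log_mono_right (b := 2) hj))
  unfold hh
  lia

lemma gg_strictMono : StrictMono gg := by
  intro a b hab
  unfold gg
  calc (a + 2) ^ hh a ≤ (a + 2) ^ hh b := Nat.pow_le_pow_right (by lia) (hh_mono hab.le)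
    _ < (b + 2) ^ hh b := Nat.pow_lt_pow_left (by lia) (by unfold hh; lia)

/-- The set of primes. -/
noncomputable def QQ : Set ℕ := range fun j => Nat.nth Nat.Prime (gg j)

lemma QQ_prime {p : ℕ} (hp : p ∈ QQ) : p.Prime := by
  obtain ⟨j, rfl⟩ := hp
  exact Nat.prime_nth_prime _

lemma nth_inj : Function.Injective fun j => Nat.nth Nat.Prime (gg j) :=
  (Nat.nth_strictMono Nat.infinite_setOfPred_prime).injective.comp gg_strictMono.injective

/-- Lower bound for the counting function. -/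
lemma count_ge {x : ℝ} (hx : 0 ≤ x) {J : ℕ} (h : gg J < Nat.primeCounting ⌊x⌋₊) :
    (J : ℝ) ≤ ({p ∈ QQ | (p : ℝ) ≤ x}.ncard : ℝ) := by
  have hfin : {p ∈ QQ | (p : ℝ) ≤ x}.Finite := by
    refine (Set.finite_Iic ⌊x⌋₊).subset ?_
    rintro p ⟨_, hp⟩
    exact Nat.le_floor hp
  have hsub : ((Finset.range J).image fun j => Nat.nth Nat.Prime (gg j) : Set ℕ) ⊆
      {p ∈ QQ | (p : ℝ) ≤ x} := by
    intro p hp
    simp only [Finset.coe_image, Finset.coe_range, mem_image, mem_Iio] at hp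
    obtain ⟨j, hj, rfl⟩ := hp
    refine ⟨⟨j, rfl⟩, ?_⟩
    have h1 : gg j < Nat.count Nat.Prime (⌊x⌋₊ + 1) := by
      have h2 := gg_strictMono.monotone hj.le
      have h3 : Nat.primeCounting ⌊x⌋₊ = Nat.count Nat.Prime (⌊x⌋₊ + 1) := rfl
      lia
    have h2 := Nat.nth_lt_of_lt_count h1
    have h3 : Nat.nth Nat.Prime (gg j) ≤ ⌊x⌋₊ := by lia
    exact (Nat.le_floor_iff hx).mp h3
  have h1 := Set.ncard_le_ncard hsub hfin
  have h2 : ((Finset.range J).image fun j => Nat.nth Nat.Prime (gg j) : Set ℕ).ncard = J := by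
    rw [Set.ncard_coe_finset, Finset.card_image_of_injective _ nth_inj,
      Finset.card_range]
  rw [h2] at h1
  exact_mod_cast h1

/-- Upper bound for the counting function. -/
lemma count_le {x : ℝ} (hx : 1 ≤ x) (K : ℕ) (hK : 1 ≤ K) :
    ({p ∈ QQ | (p : ℝ) ≤ x}.ncard : ℝ) ≤ 2 ^ (2 ^ (2 ^ K)) + x ^ (1 / (K : ℝ)) + 1 := by
  classical
  set j0 : ℕ := 2 ^ (2 ^ (2 ^ K)) with hj0
  set M : ℕ := ⌊x ^ (1 / (K : ℝ))⌋₊ with hM
  have hKR : (0 : ℝ) < K := by exact_mod_cast hK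
  have hsub : {p ∈ QQ | (p : ℝ) ≤ x} ⊆
      ((Finset.range (j0 + M + 1)).image fun j => Nat.nth Nat.Prime (gg j) : Set ℕ) := by
    rintro p ⟨⟨j, rfl⟩, hp⟩
    simp only at hp
    simp only [Finset.coe_image, Finset.coe_range, mem_image, mem_Iio]
    refine ⟨j, ?_, rfl⟩
    by_contra hcon
    push Not at hcon
    have h1 : gg j ≤ Nat.nth Nat.Prime (gg j) := Nat.le_nth fun h => absurd h Nat.infinite_setOfPred_prime
    have h2 : K ≤ hh j := hh_ge K (by lia)
    have h3 : (j + 2) ^ K ≤ gg j := Nat.pow_le_pow_right (by lia) h2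
    have h4 : ((j : ℝ) + 2) ^ K ≤ x := by
      have h5 : (((j + 2) ^ K : ℕ) : ℝ) ≤ (Nat.nth Nat.Prime (gg j) : ℝ) := by
        exact_mod_cast h3.trans h1
      push_cast at h5
      exact h5.trans hp
    have h5 : (j : ℝ) + 2 ≤ x ^ (1 / (K : ℝ)) := by
      have h6 : (((j : ℝ) + 2) ^ K) ^ (1 / (K : ℝ)) ≤ x ^ (1 / (K : ℝ)) :=
        Real.rpow_le_rpow (by positivity) h4 (by positivity)
      rw [← Real.rpow_natCast, ← Real.rpow_mul (by positivity), mul_one_div_cancel hKR.ne',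
        Real.rpow_one] at h6
      exact h6
    have h6 : x ^ (1 / (K : ℝ)) < M + 1 := Nat.lt_floor_add_one _
    have h7 : ((j0 + M + 1 : ℕ) : ℝ) ≤ j := by exact_mod_cast hcon
    push_cast at h7
    have h8 : (0 : ℝ) ≤ j0 := Nat.cast_nonneg _
    linarith
  have h1 := Set.ncard_le_ncard hsub (Finset.finite_toSet _)
  have h2 : ((Finset.range (j0 + M + 1)).image fun j => Nat.nth Nat.Prime (gg j) : Set ℕ).ncard
      = j0 + M + 1 := by
    rw [Set.ncard_coe_finset, Finset.card_image_of_injective _ nth_inj,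
      Finset.card_range]
  rw [h2] at h1
  have h3 : (({p ∈ QQ | (p : ℝ) ≤ x}.ncard : ℕ) : ℝ) ≤ ((j0 + M + 1 : ℕ) : ℝ) := by exact_mod_cast h1
  have h4 : (M : ℝ) ≤ x ^ (1 / (K : ℝ)) := Nat.floor_le (by positivity)
  push_cast at h3
  rw [hj0] at h3
  push_cast at h3
  linarith

lemma natLog_le {n : ℕ} {y : ℝ} (hy : 1 ≤ y) (h : (n : ℝ) ≤ y) : (Nat.log 2 n : ℝ) ≤ 2 * Real.log y := by
  have hl := Real.log_two_gt_d9
  rcases Nat.eq_zero_or_pos n with h0 | h0
  · rw [h0, Nat.log_zero_right]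
    have := Real.log_nonneg hy
    push_cast
    linarith
  · have h1 : (Nat.log 2 n : ℝ) ≤ Real.logb 2 n := by exact_mod_cast Real.natLog_le_logb n 2
    have hn : (1 : ℝ) ≤ n := by exact_mod_cast h0
    have h2 : Real.logb 2 n ≤ 2 * Real.log n := by
      rw [Real.logb, div_le_iff₀ (by linarith)]
      have := Real.log_nonneg hn
      nlinarith
    have h3 : Real.log n ≤ Real.log y := Real.log_le_log (by linarith) h
    linarith

lemma pi_large : ∀ᶠ x : ℝ in atTop, x ^ (1 / 4 : ℝ) < (Nat.primeCounting ⌊x⌋₊ : ℝ) := by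
  have h1 : ∀ᶠ x : ℝ in atTop, Real.log x ≤ x ^ (1 / 4 : ℝ) := by
    filter_upwards [(isLittleO_log_rpow_atTop (show (0 : ℝ) < 1 / 4 by norm_num)).bound
      (show (0 : ℝ) < 1 by norm_num), eventually_ge_atTop (1 : ℝ)] with x hx hx1
    rw [Real.norm_of_nonneg (Real.log_nonneg hx1), Real.norm_of_nonneg (by positivity), one_mul] at hx
    exact hx
  filter_upwards [h1, (tendsto_rpow_atTop (show (0 : ℝ) < 1 / 4 by norm_num)).eventually
    (eventually_ge_atTop 3), eventually_ge_atTop (3 : ℝ)] with x hx hu hx3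
  set u : ℝ := x ^ (1 / 4 : ℝ) with hudef
  have hx4 : x = u ^ 4 := by
    rw [hudef, ← Real.rpow_natCast, ← Real.rpow_mul (by linarith)]
    norm_num
  have hlog : 0 < Real.log x := Real.log_pos (by linarith)
  refine lt_of_lt_of_le ?_ (Chebyshev.pi_ge' (show 1 < x by linarith))
  rw [lt_div_iff₀ hlog]
  have h2 : Real.log (x + 2) ≤ 2 * u := by
    have h3 : Real.log (x + 2) ≤ Real.log (x ^ 2) := Real.log_le_log (by linarith) (by nlinarith)
    rw [Real.log_pow] at h3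
    push_cast at h3
    linarith
  have hl := Real.log_two_gt_d9
  have h3 : (x - 1) * (1 / 2) ≤ (x - 1) * Real.log 2 := by
    apply mul_le_mul_of_nonneg_left <;> linarith
  have h4 : u * Real.log x ≤ u * u := mul_le_mul_of_nonneg_left hx (by linarith)
  have h5 : 9 * (u * u) ≤ x := by
    rw [hx4]
    have h6 : (9 : ℝ) ≤ u * u := by nlinarith
    have h7 : u ^ 4 = (u * u) * (u * u) := by ring
    rw [h7]
    exact mul_le_mul_of_nonneg_right h6 (by positivity)
  nlinarith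

/-- Many elements. -/
lemma lower : ∀ᶠ x : ℝ in atTop,
    Real.exp (Real.log x / Real.log (Real.log x) ^ (1 / 2 : ℝ)) ≤
      ({p ∈ QQ | (p : ℝ) ≤ x}.ncard : ℝ) := by
  -- conditions on `V = log log x`
  have hV : ∀ᶠ V : ℝ in atTop, 2 * Real.log (4 * V) + 2 ≤ V ^ (1 / 2 : ℝ) / 8 ∧ 4 ≤ V ∧
      2 * V ≤ Real.exp V := by
    have h1 : Tendsto (fun V : ℝ => 4 * V) atTop atTop :=
      tendsto_id.const_mul_atTop (by norm_num)
    have h2 := h1.eventually ((isLittleO_log_rpow_atTop (show (0 : ℝ) < 1 / 2 by norm_num)).bound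
      (show (0 : ℝ) < 1 / 64 by norm_num))
    filter_upwards [h2, eventually_ge_atTop (1024 : ℝ)] with V hV hV1
    have e1 : (4 * V) ^ (1 / 2 : ℝ) = 2 * V ^ (1 / 2 : ℝ) := by
      rw [Real.mul_rpow (by norm_num) (by linarith)]
      congr 1
      rw [show (4 : ℝ) = 2 ^ (2 : ℝ) by norm_num, ← Real.rpow_mul (by norm_num)]
      norm_num
    rw [Real.norm_of_nonneg (Real.log_nonneg (by linarith)),
      Real.norm_of_nonneg (by positivity), e1] at hV
    have e2 : (32 : ℝ) ≤ V ^ (1 / 2 : ℝ) := by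
      have : (1024 : ℝ) ^ (1 / 2 : ℝ) ≤ V ^ (1 / 2 : ℝ) :=
        Real.rpow_le_rpow (by norm_num) hV1 (by norm_num)
      rw [show (1024 : ℝ) = 32 ^ (2 : ℝ) by norm_num, ← Real.rpow_mul (by norm_num)] at this
      norm_num at this
      linarith
    refine ⟨by linarith, by linarith, ?_⟩
    have := Real.quadratic_le_exp_of_nonneg (show 0 ≤ V by linarith)
    nlinarith
  filter_upwards [pi_large, (Real.tendsto_log_atTop.comp Real.tendsto_log_atTop).eventually hV,
    Real.tendsto_log_atTop.eventually (eventually_ge_atTop (1 : ℝ)),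
    eventually_ge_atTop (1 : ℝ)] with x hpi hVx hℓ hx1
  simp only [Function.comp_apply] at hVx
  set ℓ : ℝ := Real.log x with hℓdef
  set V : ℝ := Real.log ℓ with hVdef
  set s : ℝ := V ^ (1 / 2 : ℝ) with hs
  obtain ⟨hV1, hV4, hV2⟩ := hVx
  have hx0 : 0 < x := by linarith
  have hs2 : 2 ≤ s := by
    have : (4 : ℝ) ^ (1 / 2 : ℝ) ≤ V ^ (1 / 2 : ℝ) :=
      Real.rpow_le_rpow (by norm_num) hV4 (by norm_num)
    rw [show (4 : ℝ) = 2 ^ (2 : ℝ) by norm_num, ← Real.rpow_mul (by norm_num)] at this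
    norm_num at this
    rw [hs]
    norm_num
    linarith
  have hsV : s ≤ V := by
    rw [hs]
    calc V ^ (1 / 2 : ℝ) ≤ V ^ (1 : ℝ) :=
          Real.rpow_le_rpow_of_exponent_le (by linarith) (by norm_num)
      _ = V := Real.rpow_one V
  have heV : Real.exp V = ℓ := by
    rw [hVdef, Real.exp_log (by linarith)]
  have hℓs : 2 ≤ ℓ / s := by
    rw [le_div_iff₀ (by linarith)]
    rw [heV] at hV2
    linarith
  set J : ℕ := ⌈Real.exp (ℓ / s)⌉₊ with hJ
  have hJ1 : (J : ℝ) < Real.exp (ℓ / s) + 1 := Nat.ceil_lt_add_one (by positivity)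
  have hJ0 : Real.exp (ℓ / s) ≤ J := Nat.le_ceil _
  have hE : (7 : ℝ) ≤ Real.exp (ℓ / s) := by
    have h1 : Real.exp 2 ≤ Real.exp (ℓ / s) := Real.exp_le_exp.mpr hℓs
    have h2 : (7 : ℝ) ≤ Real.exp 2 := by
      have := Real.exp_one_gt_d9
      rw [show (2 : ℝ) = 1 + 1 by norm_num, Real.exp_add]
      nlinarith
    linarith
  have hJ2 : (J : ℝ) + 2 ≤ Real.exp (2 * (ℓ / s)) := by
    rw [two_mul, Real.exp_add]
    nlinarith
  have hJx : (J : ℝ) ≤ x := by
    have h1 : Real.exp (2 * (ℓ / s)) ≤ Real.exp ℓ := by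
      apply Real.exp_le_exp.mpr
      rw [← mul_div_assoc, div_le_iff₀ (by linarith)]
      nlinarith
    rw [hℓdef, Real.exp_log hx0, ← hℓdef] at h1
    linarith
  have hL1 : (Nat.log 2 J : ℝ) ≤ 2 * ℓ := natLog_le hx1 hJx
  have hL2 : (Nat.log 2 (Nat.log 2 J) : ℝ) ≤ 4 * V := by
    have h1 := natLog_le (show 1 ≤ 2 * ℓ by linarith) hL1
    rw [Real.log_mul (by norm_num) (by linarith)] at h1
    have h2 := Real.log_two_lt_d9
    linarith
  have hL3 := natLog_le (show 1 ≤ 4 * V by linarith) hL2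
  have hh1 : (hh J : ℝ) ≤ s / 8 := by
    unfold hh
    push_cast
    linarith
  have hgg : ((gg J : ℕ) : ℝ) ≤ x ^ (1 / 4 : ℝ) := by
    unfold gg
    push_cast
    calc ((J : ℝ) + 2) ^ hh J ≤ (Real.exp (2 * (ℓ / s))) ^ hh J :=
          pow_le_pow_left₀ (by positivity) hJ2 _
      _ = Real.exp (hh J * (2 * (ℓ / s))) := by rw [← Real.exp_nat_mul]
      _ ≤ Real.exp (ℓ * (1 / 4)) := by
          apply Real.exp_le_exp.mpr
          have h1 : (hh J : ℝ) * (2 * (ℓ / s)) ≤ s / 8 * (2 * (ℓ / s)) :=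
            mul_le_mul_of_nonneg_right hh1 (by linarith)
          have h2 : s / 8 * (2 * (ℓ / s)) = ℓ * (1 / 4) := by
            field_simp
            norm_num
          linarith
      _ = x ^ (1 / 4 : ℝ) := by rw [Real.rpow_def_of_pos hx0]
  have hlt : gg J < Nat.primeCounting ⌊x⌋₊ := by
    have := lt_of_le_of_lt hgg hpi
    exact_mod_cast this
  exact hJ0.trans (count_ge hx0.le hlt)

/-- Few elements. -/
lemma upper {ε : ℝ} (hε : 0 < ε) : ∀ᶠ x : ℝ in atTop,
    ({p ∈ QQ | (p : ℝ) ≤ x}.ncard : ℝ) < x ^ ε := by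
  obtain ⟨K, hK⟩ := exists_nat_gt (2 / ε)
  have hKpos : (0 : ℝ) < K := lt_trans (by positivity) hK
  have hK1 : 1 ≤ K := by
    have : 0 < K := by exact_mod_cast hKpos
    exact this
  have hKε : 1 / (K : ℝ) ≤ ε / 2 := by
    rw [div_le_iff₀ hKpos]
    rw [div_lt_iff₀ hε] at hK
    nlinarith
  have ht := tendsto_rpow_atTop (show (0 : ℝ) < ε / 2 by positivity)
  filter_upwards [ht.eventually (eventually_ge_atTop ((2 : ℝ) ^ (2 ^ (2 ^ K)) + 3)),
    eventually_ge_atTop (1 : ℝ)] with x hx hx1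
  have h1 := count_le hx1 K hK1
  have h2 : x ^ (1 / (K : ℝ)) ≤ x ^ (ε / 2) := Real.rpow_le_rpow_of_exponent_le hx1 hKε
  have h3 : x ^ ε = x ^ (ε / 2) * x ^ (ε / 2) := by
    rw [← Real.rpow_add (by linarith)]
    congr 1
    ring
  rw [h3]
  have h4 : (0 : ℝ) < (2 : ℝ) ^ (2 ^ (2 ^ K)) := by positivity
  nlinarith

/-- The semigroup generated by these primes has zero logarithmic density. -/
theorem zero_density {ε : ℝ} (hε : 0 < ε) : ∀ᶠ x : ℝ in atTop,
    ({n ∈ (Submonoid.closure QQ : Set ℕ) | (n : ℝ) ≤ x}.ncard : ℝ) ≤ x ^ ε := by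
  by_contra hcon
  rw [not_eventually] at hcon
  have h1 : ∃ᶠ x : ℝ in atTop,
      x ^ ε ≤ ({n ∈ (Submonoid.closure QQ : Set ℕ) | (n : ℝ) ≤ x}.ncard : ℝ) :=
    hcon.mono fun x hx => (not_le.mp hx).le
  have h2 := Pool.Agent.H237.Rare.dense_of_upper (fun p hp => (QQ_prime hp).two_le) hε h1
  obtain ⟨x, hx1, hx2⟩ := (h2.and_eventually (upper (show 0 < ε / 4 by positivity))).exists
  exact absurd hx1 (not_le.mpr hx2)

end Pool.Agent.H237.Torus
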